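import Pool.Agent.NH25.UF.All
import Pool.Agent.Y120.J.Core2

/-!
# Algebraically independent functions and constants: relations over all number fields of bounded degree
-/

set_option autoImplicit false

open Module

namespace Pool.Agent.NH25.FR

open Pool.Agent.Y113.GG Pool.Agent.Y921.DB Pool.Agent.NH25.DG Pool.Agent.NH25.DL Pool.Agent.NH25.UF

variable {k : ℕ} {ν κ₁ : Type}

/-- the functions are algebraically independent over `ℂ(z)` -/
def Ind (f : (Fin k → ℂ) → (Fin k → ℂ) → ν → ℂ) (r : ℝ) : Prop :=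
  ∀ R : MvPolynomial ν (MvPolynomial (Fin k) ℂ), (∀ z : Fin k → ℂ, (∀ l, ‖z l‖ < r) → ∀ t : Fin k → ℂ,
    MvPolynomial.eval₂Hom (MvPolynomial.eval z) (f z t) R = 0) → R = 0

/-- functions of independent variables -/
theorem ind_of {ν₀ : Type} {r : ℝ} (g : Fin k → ℂ → ℂ → ν₀ → ℂ)
    (hS : ∀ l, ∀ P : MvPolynomial (Option ν₀) ℂ,
      (∀ z t : ℂ, ‖z‖ < r → MvPolynomial.eval (fun o => o.elim z (g l z t)) P = 0) → P = 0) :
    Ind (fun z t (v : Fin k × ν₀) => g v.1 (z v.1) (t v.1) v.2) r := by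
  intro R hR
  set em : Fin k × ν₀ → (Σ _ : Fin k, ν₀) := fun v => ⟨v.1, v.2⟩ with hem
  have hinj : Function.Injective em := fun v v' h => by
    obtain ⟨h1, h2⟩ := Sigma.mk.inj_iff.1 h
    exact Prod.ext h1 (eq_of_heq h2)
  refine MvPolynomial.rename_injective em hinj ?_
  rw [map_zero]
  refine Pool.Agent.Y120.J.multi' (fun l => {p | ∃ z t : ℂ, ‖z‖ < r ∧ p = (z, g l z t)}) (fun l P hP => ?_) _ fun p hp => ?_
  · exact hS l P fun z t hz => hP (z, g l z t) ⟨z, t, hz, rfl⟩
  · choose z t hz hpe using hp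
    have h1 := hR z hz t
    rw [MvPolynomial.eval₂_rename, ← h1, MvPolynomial.coe_eval₂Hom]
    congr 1
    · refine MvPolynomial.ringHom_ext (fun c => ?_) fun l => ?_
      · simp
      · simp [hpe]
    · funext v
      rw [Function.comp_apply, hem]
      simp only
      rw [hpe]

/-- the functions together with the constants -/
def Pc (cw : κ₁ → ℂ) (f : (Fin k → ℂ) → (Fin k → ℂ) → ν → ℂ) (z t : Fin k → ℂ) : κ₁ ⊕ ν → ℂ := Sum.elim cw (f z t)

/-- the substitution of the constants -/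
noncomputable def sp (cw : κ₁ → ℂ) : MvPolynomial (κ₁ ⊕ ν) ℂ →ₐ[ℂ] MvPolynomial ν ℂ :=
  MvPolynomial.aeval (Sum.elim (fun o => MvPolynomial.C (cw o)) MvPolynomial.X)

lemma sp_eval (cw : κ₁ → ℂ) (P : MvPolynomial (κ₁ ⊕ ν) ℂ) (y : ν → ℂ) :
    MvPolynomial.eval y (sp cw P) = MvPolynomial.eval (Sum.elim cw y) P := by
  have h1 : (MvPolynomial.eval y).comp (sp (ν := ν) cw).toRingHom = MvPolynomial.eval (Sum.elim cw y) := by
    refine MvPolynomial.ringHom_ext (fun c => ?_) fun o => ?_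
    · rw [RingHom.comp_apply]
      show MvPolynomial.eval y (sp cw (MvPolynomial.C c)) = _
      unfold sp
      rw [MvPolynomial.aeval_C, MvPolynomial.algebraMap_eq, MvPolynomial.eval_C, MvPolynomial.eval_C]
    · rw [RingHom.comp_apply]
      show MvPolynomial.eval y (sp cw (MvPolynomial.X o)) = _
      unfold sp
      rw [MvPolynomial.aeval_X, MvPolynomial.eval_X]
      rcases o with o | o
      · simp
      · simp
  exact congrFun (congrArg DFunLike.coe h1) P

variable {cw : κ₁ → ℂ} {f : (Fin k → ℂ) → (Fin k → ℂ) → ν → ℂ} {r : ℝ}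

/-- the functional relations -/
lemma relI_le (hf : Ind f r) {G : MvPolynomial (κ₁ ⊕ ν) (MvPolynomial (Fin k) Qb)} (hG : G ∈ relI (Pc cw f) r)
    (s : Fin k → ℂ) : sp cw (G.map (MvPolynomial.aeval s : MvPolynomial (Fin k) Qb →ₐ[Qb] ℂ).toRingHom) = 0 := by
  set ψ : MvPolynomial (Fin k) Qb →+* MvPolynomial (Fin k) ℂ := MvPolynomial.map (algebraMap Qb ℂ) with hψ
  set R : MvPolynomial ν (MvPolynomial (Fin k) ℂ) := MvPolynomial.eval₂Hom (MvPolynomial.C.comp ψ)
    (Sum.elim (fun o => MvPolynomial.C (MvPolynomial.C (cw o))) MvPolynomial.X) G with hR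
  have hz : ∀ (z : Fin k → ℂ), (MvPolynomial.eval z).comp ψ =
      (MvPolynomial.aeval z : MvPolynomial (Fin k) Qb →ₐ[Qb] ℂ).toRingHom := by
    intro z
    refine MvPolynomial.ringHom_ext (fun a => ?_) fun l => ?_
    · simp [hψ]
    · simp [hψ]
  have h0 : R = 0 := by
    refine hf R fun z hz' t => ?_
    have h1 := mem_relI.1 hG z hz' t
    rw [← h1, hR]
    have h2 : (MvPolynomial.eval₂Hom (MvPolynomial.eval z) (f z t)).comp (MvPolynomial.eval₂Hom (MvPolynomial.C.comp ψ)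
        (Sum.elim (fun o => MvPolynomial.C (MvPolynomial.C (cw o))) MvPolynomial.X)) = evG (Pc cw f) z t := by
      refine MvPolynomial.ringHom_ext (fun a => ?_) fun o => ?_
      · rw [RingHom.comp_apply, MvPolynomial.eval₂Hom_C, RingHom.comp_apply, MvPolynomial.eval₂Hom_C,
          MvPolynomial.eval₂Hom_C, ← hz z]
        rfl
      · rw [RingHom.comp_apply, MvPolynomial.eval₂Hom_X']
        rcases o with o | o
        · simp [Pc]
        · simp [Pc]
    exact congrFun (congrArg DFunLike.coe h2) G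
  have h1 : ((MvPolynomial.map (MvPolynomial.eval s)).comp (MvPolynomial.eval₂Hom (MvPolynomial.C.comp ψ)
      (Sum.elim (fun o => MvPolynomial.C (MvPolynomial.C (cw o))) MvPolynomial.X)) :
        MvPolynomial (κ₁ ⊕ ν) (MvPolynomial (Fin k) Qb) →+* MvPolynomial ν ℂ) =
      (sp (ν := ν) cw).toRingHom.comp (MvPolynomial.map (MvPolynomial.aeval s : MvPolynomial (Fin k) Qb →ₐ[Qb] ℂ).toRingHom) := by
    refine MvPolynomial.ringHom_ext (fun a => ?_) fun o => ?_
    · rw [RingHom.comp_apply, RingHom.comp_apply, MvPolynomial.coe_eval₂Hom, MvPolynomial.eval₂_C, RingHom.comp_apply,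
        MvPolynomial.map_C, MvPolynomial.map_C]
      show _ = sp cw (MvPolynomial.C _)
      unfold sp
      rw [MvPolynomial.aeval_C, MvPolynomial.algebraMap_eq, ← hz s]
      rfl
    · rw [RingHom.comp_apply, RingHom.comp_apply, MvPolynomial.coe_eval₂Hom, MvPolynomial.eval₂_X, MvPolynomial.map_X]
      show _ = sp cw (MvPolynomial.X o)
      unfold sp
      rw [MvPolynomial.aeval_X]
      rcases o with o | o
      · simp
      · simp
  have h2 := congrFun (congrArg DFunLike.coe h1) G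
  rw [RingHom.comp_apply, RingHom.comp_apply] at h2
  have h3 : MvPolynomial.eval₂Hom (MvPolynomial.C.comp ψ)
      (Sum.elim (fun o => MvPolynomial.C (MvPolynomial.C (cw o))) MvPolynomial.X) G = (0 : MvPolynomial ν (MvPolynomial (Fin k) ℂ)) := h0
  rw [h3, map_zero] at h2
  exact h2.symm

/-- the relations between the constants -/
noncomputable def Ic (cw : κ₁ → ℂ) : Ideal (MvPolynomial (κ₁ ⊕ ν) Qb) :=
  RingHom.ker ((sp (ν := ν) cw).toRingHom.comp (MvPolynomial.map (algebraMap Qb ℂ)))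

lemma mem_Ic {F : MvPolynomial (κ₁ ⊕ ν) Qb} : F ∈ Ic (ν := ν) cw ↔ sp cw (F.map (algebraMap Qb ℂ)) = 0 := Iff.rfl

lemma Ic_prime : (Ic (ν := ν) cw).IsPrime := RingHom.ker_isPrime _

theorem Js_eq (hf : Ind f r) (s : Fin k → Qb) : Js (relI (Pc cw f) r) (MvPolynomial.eval s) = Ic cw := by
  refine le_antisymm ?_ fun F hF => ?_
  · rw [Ideal.map_le_iff_le_comap]
    intro G hG
    rw [Ideal.mem_comap, mem_Ic, map_comp_coe]
    exact relI_le hf hG _
  · have h1 : F.map (MvPolynomial.C : Qb →+* MvPolynomial (Fin k) Qb) ∈ relI (Pc cw f) r := by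
      rw [mem_relI]
      intro z hz t
      have h2 := congrArg (MvPolynomial.eval (f z t)) (mem_Ic.1 hF)
      rw [sp_eval, map_zero, MvPolynomial.eval_map] at h2
      rw [← h2, MvPolynomial.coe_eval₂Hom, MvPolynomial.eval₂_map]
      congr 1
      refine RingHom.ext fun a => ?_
      simp
    have h2 := Ideal.mem_map_of_mem (MvPolynomial.map (MvPolynomial.eval s)) h1
    rw [MvPolynomial.map_map] at h2
    have h3 : (MvPolynomial.eval s).comp (MvPolynomial.C : Qb →+* MvPolynomial (Fin k) Qb) = RingHom.id Qb := by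
      refine RingHom.ext fun a => ?_
      simp
    rwa [h3, MvPolynomial.map_id] at h2

/-- **No relations.** -/
theorem free_of [Fintype κ₁] [Fintype ν] (hf : Ind f r) {D δ : ℕ} {z : Fin k → ℂ} (h : Pnt D (Pc cw f) r δ z)
    {K₀ : IntermediateField ℚ ℂ} (hK₀ : FiniteDimensional ℚ K₀) (hKD : finrank ℚ K₀ ≤ D) {t : Fin k → ℂ}
    (ht : ∀ l, Complex.exp (t l) = 1 / z l) {P : MvPolynomial (κ₁ ⊕ ν) ℂ} (hP : P.totalDegree ≤ δ)
    (hPc : ∀ e, P.coeff e ∈ K₀ ⊔ IntermediateField.adjoin ℚ (Set.range z))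
    (h0 : MvPolynomial.aeval (Pc cw f z t) P = 0) : sp cw P = 0 := by
  obtain ⟨-, s, rfl, hs⟩ := h
  obtain ⟨𝔮, h𝔮, F, hF, hFP⟩ := (hs K₀ hK₀ hKD t ht).1 P hP hPc h0
  rw [Js_eq hf] at h𝔮
  have := Ic_prime (ν := ν) (cw := cw)
  rw [Ideal.minimalPrimes_eq_subsingleton_self, Set.mem_singleton_iff] at h𝔮
  rw [h𝔮] at hF
  rw [← hFP]
  exact mem_Ic.1 hF

end Pool.Agent.NH25.FR
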