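import Pool.Agent.NH25.FR.Free

/-!
# Affine combinations of the functions with the constants
-/

set_option autoImplicit false

open Module

namespace Pool.Agent.NH25.FR

open Pool.Agent.NH25.UF

variable {k : ℕ} {ν κ₁ κ₂ : Type}

/-- substitution of polynomials of degree at most `1` -/
lemma totalDegree_aeval_le {σ τ : Type} (g : σ → MvPolynomial τ ℂ) (hg : ∀ i, (g i).totalDegree ≤ 1)
    (P : MvPolynomial σ ℂ) : (MvPolynomial.aeval g P).totalDegree ≤ P.totalDegree := by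
  classical
  rw [MvPolynomial.aeval_def, MvPolynomial.eval₂_eq]
  refine MvPolynomial.totalDegree_finsetSum_le fun e he => ?_
  refine (MvPolynomial.totalDegree_mul _ _).trans ?_
  rw [MvPolynomial.algebraMap_eq, MvPolynomial.totalDegree_C, zero_add]
  refine (MvPolynomial.totalDegree_finsetProd _ _).trans ?_
  refine le_trans (Finset.sum_le_sum fun i _ => ?_) (MvPolynomial.le_totalDegree he)
  refine (MvPolynomial.totalDegree_pow _ _).trans ?_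
  calc e i * (g i).totalDegree ≤ e i * 1 := Nat.mul_le_mul_left _ (hg i)
    _ = e i := mul_one _

section

variable [Fintype κ₁] [Fintype κ₂] [Fintype ν]

/-- the substitution -/
noncomputable def su (α : ν → ℚ) (β : ν → κ₁ ⊕ κ₂ → ℚ) : κ₁ ⊕ ν → MvPolynomial ((κ₁ ⊕ κ₂) ⊕ ν) ℂ :=
  Sum.elim (fun o => MvPolynomial.X (Sum.inl (Sum.inl o))) fun v =>
    MvPolynomial.C ((α v : ℚ) : ℂ) * MvPolynomial.X (Sum.inr v) +
      ∑ o, MvPolynomial.C ((β v o : ℚ) : ℂ) * MvPolynomial.X (Sum.inl o)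

omit [Fintype ν] in
lemma su_deg (α : ν → ℚ) (β : ν → κ₁ ⊕ κ₂ → ℚ) (i : κ₁ ⊕ ν) : (su α β i).totalDegree ≤ 1 := by
  classical
  have h1 : ∀ (c : ℂ) (v : (κ₁ ⊕ κ₂) ⊕ ν), (MvPolynomial.C c * MvPolynomial.X v : MvPolynomial ((κ₁ ⊕ κ₂) ⊕ ν) ℂ).totalDegree ≤ 1 := by
    intro c v
    refine (MvPolynomial.totalDegree_mul _ _).trans ?_
    rw [MvPolynomial.totalDegree_C, MvPolynomial.totalDegree_X]
  rcases i with o | v
  · show (MvPolynomial.X (Sum.inl (Sum.inl o)) : MvPolynomial ((κ₁ ⊕ κ₂) ⊕ ν) ℂ).totalDegree ≤ 1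
    rw [MvPolynomial.totalDegree_X]
  · refine (MvPolynomial.totalDegree_add _ _).trans (max_le (h1 _ _) ?_)
    exact MvPolynomial.totalDegree_finsetSum_le fun o _ => h1 _ _

omit [Fintype ν] in
lemma su_eval (α : ν → ℚ) (β : ν → κ₁ ⊕ κ₂ → ℚ) (w : κ₁ → ℂ) (cw : κ₂ → ℂ) (x : ν → ℂ) (P : MvPolynomial (κ₁ ⊕ ν) ℂ) :
    MvPolynomial.eval (Sum.elim (Sum.elim w cw) x) (MvPolynomial.aeval (su α β) P) =
      MvPolynomial.eval (Sum.elim w fun v => (α v : ℂ) * x v + ∑ o, (β v o : ℂ) * Sum.elim w cw o) P := by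
  have h1 : (MvPolynomial.eval (Sum.elim (Sum.elim w cw) x)).comp (MvPolynomial.aeval (su α β)).toRingHom =
      (MvPolynomial.eval (Sum.elim w fun v => (α v : ℂ) * x v + ∑ o, (β v o : ℂ) * Sum.elim w cw o) :
        MvPolynomial (κ₁ ⊕ ν) ℂ →+* ℂ) := by
    refine MvPolynomial.ringHom_ext (fun a => ?_) fun i => ?_
    · simp
    · rcases i with o | v
      · simp [su]
      · simp [su, map_sum]
  exact congrFun (congrArg DFunLike.coe h1) P

omit [Fintype ν] in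
lemma su_mem (α : ν → ℚ) (β : ν → κ₁ ⊕ κ₂ → ℚ) {K : IntermediateField ℚ ℂ} {P : MvPolynomial (κ₁ ⊕ ν) ℂ}
    (hP : ∀ e, P.coeff e ∈ K) (e : (κ₁ ⊕ κ₂) ⊕ ν →₀ ℕ) : (MvPolynomial.aeval (su α β) P).coeff e ∈ K := by
  classical
  have h3 : MvPolynomial.aeval (su α β) P ∈
      (MvPolynomial.map (algebraMap K ℂ) : MvPolynomial ((κ₁ ⊕ κ₂) ⊕ ν) K →+* _).range := by
    have hC : ∀ x ∈ K, (MvPolynomial.C x : MvPolynomial ((κ₁ ⊕ κ₂) ⊕ ν) ℂ) ∈
        (MvPolynomial.map (algebraMap K ℂ) : MvPolynomial ((κ₁ ⊕ κ₂) ⊕ ν) K →+* _).range :=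
      fun x hx => ⟨MvPolynomial.C ⟨x, hx⟩, by rw [MvPolynomial.map_C]; rfl⟩
    have hX : ∀ o, (MvPolynomial.X o : MvPolynomial ((κ₁ ⊕ κ₂) ⊕ ν) ℂ) ∈
        (MvPolynomial.map (algebraMap K ℂ) : MvPolynomial ((κ₁ ⊕ κ₂) ⊕ ν) K →+* _).range :=
      fun o => ⟨MvPolynomial.X o, by rw [MvPolynomial.map_X]⟩
    have hq : ∀ x : ℚ, (x : ℂ) ∈ K := fun x => by
      have := K.algebraMap_mem x
      rwa [eq_ratCast] at this
    rw [MvPolynomial.aeval_def, MvPolynomial.eval₂_eq]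
    refine sum_mem fun d _ => mul_mem (hC _ (hP d)) (prod_mem fun i _ => pow_mem ?_ _)
    rcases i with o | v
    · exact hX _
    · exact add_mem (mul_mem (hC _ (hq _)) (hX _)) (sum_mem fun o _ => mul_mem (hC _ (hq _)) (hX _))
  obtain ⟨Q, hQ⟩ := h3
  rw [← hQ, MvPolynomial.coeff_map]
  exact (Q.coeff e).2

/-- **No relations between affine combinations.** -/
theorem aff {w : κ₁ → ℂ} {cw : κ₂ → ℂ} {f : (Fin k → ℂ) → (Fin k → ℂ) → ν → ℂ} {r : ℝ} (hf : Ind f r) {D δ : ℕ}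
    {z : Fin k → ℂ} (h : Pnt D (Pc (Sum.elim w cw) f) r δ z) {K : IntermediateField ℚ ℂ} (hK : FiniteDimensional ℚ K)
    (hKD : finrank ℚ K ≤ D) {t : Fin k → ℂ} (ht : ∀ l, Complex.exp (t l) = 1 / z l) {P : MvPolynomial (κ₁ ⊕ ν) ℂ}
    (hP : P.totalDegree ≤ δ) (hPc : ∀ e, P.coeff e ∈ K) (y : ν → ℂ) (α : ν → ℚ) (hα : ∀ v, α v ≠ 0) (β : ν → κ₁ ⊕ κ₂ → ℚ)
    (hy : ∀ v, y v = (α v : ℂ) * f z t v + ∑ o, (β v o : ℂ) * Sum.elim w cw o)
    (h0 : MvPolynomial.eval (Sum.elim w y) P = 0) : sp w P = 0 := by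
  have h1 : sp (Sum.elim w cw) (MvPolynomial.aeval (su α β) P) = 0 := by
    refine free_of hf h hK hKD ht ((totalDegree_aeval_le _ (su_deg α β) P).trans hP) (fun e => ?_) ?_
    · exact (le_sup_left : K ≤ K ⊔ IntermediateField.adjoin ℚ (Set.range z)) (su_mem α β hPc e)
    · rw [MvPolynomial.aeval_eq_eval]
      show MvPolynomial.eval (Sum.elim (Sum.elim w cw) (f z t)) _ = 0
      rw [su_eval, ← h0]
      have h5 : (fun v => (α v : ℂ) * f z t v + ∑ o, (β v o : ℂ) * Sum.elim w cw o) = y := by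
        funext v
        exact (hy v).symm
      rw [h5]
  refine MvPolynomial.funext fun x => ?_
  rw [map_zero, sp_eval]
  have h2 := congrArg (MvPolynomial.eval fun v => ((α v : ℂ))⁻¹ * (x v - ∑ o, (β v o : ℂ) * Sum.elim w cw o)) h1
  rw [sp_eval, map_zero, su_eval] at h2
  rw [← h2]
  have h5 : (fun v => (α v : ℂ) * (((α v : ℂ))⁻¹ * (x v - ∑ o, (β v o : ℂ) * Sum.elim w cw o)) +
      ∑ o, (β v o : ℂ) * Sum.elim w cw o) = x := by
    funext v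
    have h3 : (α v : ℂ) ≠ 0 := by exact_mod_cast hα v
    rw [mul_inv_cancel_left₀ h3]
    ring
  rw [h5]

end

end Pool.Agent.NH25.FR
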