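import Pool.Agent.NH25.UF.All
import Pool.Agent.Y916.Sl.Many
import Pool.Agent.Y123.GN.E7

/-!
# Counting and windows for properties which follow from the general theorem
-/

set_option autoImplicit false

open Module Filter PowerSeries

namespace Pool.Agent.NH25.FR

open Pool.Agent.NH25.DL Pool.Agent.NH25.UF Pool.Agent.Y916 Pool.Agent.Y921.DB

variable {k : ℕ} {ι : Type} [Fintype ι]

/-- `ξ` is a root of a nonzero integral polynomial of degree at most `m` with coefficients of size at most `|ξ| ^ A` -/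
def Ht (m A : ℕ) (ξ : ℂ) : Prop :=
  ∃ f : Polynomial ℤ, f ≠ 0 ∧ f.natDegree ≤ m ∧ (∀ j, |(f.coeff j : ℝ)| ≤ ‖ξ‖ ^ A) ∧ Polynomial.aeval ξ f = 0

/-- the exponent -/
def sz {k : ℕ} (m : Fin k → ℕ) : ℕ := ∑ l, m l * (m l + 1) / 2

section

variable {P : (Fin k → ℂ) → (Fin k → ℂ) → ι → ℂ} {ρ : ℝ} {L : Type} [Field L] [NumberField L] [Algebra L ℂ]
  {n : Fin k → ℕ} {N : ∀ l, Matrix (Fin (n l)) (Fin (n l)) ℤ} {H : ∀ l, Matrix (Fin (n l)) (Fin (n l)) (PowerSeries L)}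

/-- **Counting.** -/
theorem cnt (hρ : 0 < ρ) (hH : ∀ l, LFam (N l) (H l)) (R : RepL P ρ H) (Q : ℕ → ℕ → (Fin k → ℂ) → Prop) (g : ℕ → ℕ)
    (hQ : ∀ r, 0 < r → r ≤ ρ → ∀ (D δ : ℕ) (s : Fin k → ℂ), (∀ l, s l ≠ 0) → Pnt D P r (g δ) s → Q D δ s)
    (m : Fin k → ℕ) {η : ℝ} (hη : 0 < η) (hη1 : η ≤ 1) (δ D : ℕ) :
    ∃ c C : ℝ, 0 < c ∧ ∀ T : ℕ, 1 ≤ T → ∀ a : Fin k → ℕ, (∀ l, 1 ≤ a l ∧ (a l : ℝ) ≤ (T : ℝ) ^ (1 - η)) →
      ({β : Fin k → ℂ | (∀ l, Sl.SInt (m l) T (β l)) ∧ ¬ Q D δ fun l => (a l : ℂ) / β l}.ncard : ℝ) ≤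
        C * (T : ℝ) ^ ((sz m : ℝ) - c) := by
  classical
  obtain ⟨r, hr, hrr, -, hcount, -⟩ := full_count R hρ hH
  have hexp : sz m = ∑ l, Sl.Mm (m l) := Finset.sum_congr rfl fun l _ => (Sl.Mm_eq (m l)).symm
  obtain ⟨c₁, C₁, hc₁, hC₁, h₁⟩ := hcount (g δ) D m η hη hη1
  obtain ⟨C₂, hC₂, h₂⟩ := Pool.Agent.NH25.DG.zeros_NF (p := ∏ l : Fin k, (MvPolynomial.X l : MvPolynomial (Fin k) ℂ))
    (Finset.prod_ne_zero_iff.2 fun l _ => MvPolynomial.X_ne_zero l) m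
  refine ⟨min c₁ 1, C₁ + C₂, lt_min hc₁ one_pos, fun T hT a ha => ?_⟩
  have hT1 : (1 : ℝ) ≤ T := by exact_mod_cast hT
  have hsub : {β : Fin k → ℂ | (∀ l, Sl.SInt (m l) T (β l)) ∧ ¬ Q D δ fun l => (a l : ℂ) / β l} ⊆
      ((((Fintype.piFinset fun l : Fin k => Sl.NF (m l) T).filter fun β =>
        ¬ Pnt D P r (g δ) (fun l => (a l : ℂ) / β l)) ∪
      ((Fintype.piFinset fun l : Fin k => Sl.NF (m l) T).filter fun β =>
        MvPolynomial.eval (fun l => (a l : ℂ) / β l) (∏ l : Fin k, (MvPolynomial.X l : MvPolynomial (Fin k) ℂ)) = 0) :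
        Finset (Fin k → ℂ)) : Set (Fin k → ℂ)) := by
    rintro β ⟨hβ1, hβ2⟩
    have hβ3 : β ∈ Fintype.piFinset fun l : Fin k => Sl.NF (m l) T :=
      Fintype.mem_piFinset.2 fun l => Sl.mem_NF.2 (Sl.SInt.aint (hβ1 l))
    rw [Finset.mem_coe, Finset.mem_union, Finset.mem_filter, Finset.mem_filter]
    by_contra hcon
    push Not at hcon
    obtain ⟨h4, h5⟩ := hcon
    have h4 := h4 hβ3
    have h5 := h5 hβ3
    rw [map_prod, Finset.prod_ne_zero_iff] at h5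
    apply hβ2
    exact hQ r hr hrr D δ _ (fun l => by
      have := h5 l (Finset.mem_univ l)
      rwa [MvPolynomial.eval_X] at this) h4
  have h3 := Set.ncard_le_ncard hsub (Finset.finite_toSet _)
  rw [Set.ncard_coe_finset] at h3
  refine (Nat.cast_le.2 (h3.trans (Finset.card_union_le _ _))).trans ?_
  rw [Nat.cast_add, add_mul]
  rw [hexp]
  refine add_le_add ((h₁ T hT a ha).trans (mul_le_mul_of_nonneg_left ?_ hC₁))
    ((h₂ T hT a fun i => (ha i).1).trans (mul_le_mul_of_nonneg_left ?_ hC₂))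
  · exact Real.rpow_le_rpow_of_exponent_le hT1 (by linarith [min_le_left c₁ 1])
  · exact Real.rpow_le_rpow_of_exponent_le hT1 (by linarith [min_le_right c₁ 1])

/-- **Windows.** -/
theorem win (hρ : 0 < ρ) (hH : ∀ l, LFam (N l) (H l)) (R : RepL P ρ H) (Q : ℕ → ℕ → (Fin k → ℂ) → Prop) (g : ℕ → ℕ)
    (hQ : ∀ r, 0 < r → r ≤ ρ → ∀ (D δ : ℕ) (s : Fin k → ℂ), (∀ l, s l ≠ 0) → Pnt D P r (g δ) s → Q D δ s)
    (δ D m A : ℕ) : ∃ M E : ℕ, ∀ (ξ : Fin k → ℂ) (G : Fin k → ℕ), (∀ l, Ht m A (ξ l)) →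
      (∀ l, ((G l : ℝ) + 2) ^ E ≤ ‖ξ l‖) →
      {g : Fin k → ℤ | (∀ l, |g l| ≤ (G l : ℤ)) ∧ ¬ Q D δ fun l => 1 / (ξ l + (g l : ℂ))}.ncard ≤
        M * ∑ l, ∏ l' ∈ Finset.univ.erase l, (2 * G l' + 1) := by
  classical
  obtain ⟨r, hr, hrr, -, -, hwin⟩ := full_count R hρ hH
  obtain ⟨M, E, hME⟩ := hwin (g δ) D m (2 * A + 2)
  refine ⟨M, E + 1, fun ξ G hξ hGξ => ?_⟩
  have hG0 : ∀ l, (0 : ℝ) ≤ G l := fun l => Nat.cast_nonneg _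
  have hG1 : ∀ l, (1 : ℝ) ≤ (G l : ℝ) + 2 := fun l => by linarith [hG0 l]
  have hξG : ∀ l, (G l : ℝ) + 2 ≤ ‖ξ l‖ := fun l => (le_self_pow₀ (hG1 l) (by omega)).trans (hGξ l)
  have hξ2 : ∀ l, (2 : ℝ) ≤ ‖ξ l‖ := fun l => by linarith [hξG l, hG0 l]
  have hpt : ∀ l, ∃ (K₁ : IntermediateField ℚ ℂ) (ξ' : K₁), FiniteDimensional ℚ K₁ ∧ Module.finrank ℚ K₁ ≤ m ∧
      (ξ' : ℂ) = ξ l ∧ Al.Pt K₁ ξ' (‖ξ l‖ ^ A * (‖ξ l‖ ^ A + 2)) := by
    intro l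
    obtain ⟨f, hf0, hfd, hfY, hf⟩ := hξ l
    exact Al.pt_root hf0 hfd hfY hf
  choose K ξ' h1 h2 h3 h4 using hpt
  refine le_trans ?_ (hME G K ξ' _ h1 h2 h4 (fun l => ?_) (fun l => ?_))
  · rw [← Set.ncard_coe_finset, Finset.coe_filter]
    refine Set.ncard_le_ncard (fun g hg => ?_) ((Finset.finite_toSet _).subset fun g hg => hg.1)
    obtain ⟨hg1, hg2⟩ := hg
    refine ⟨Fintype.mem_piFinset.2 fun l => Finset.mem_Icc.2 (abs_le.1 (hg1 l)), fun hh => hg2 ?_⟩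
    simp only [h3] at hh
    have h5 : ∀ l, ξ l + (g l : ℂ) ≠ 0 := by
      intro l h0
      have h6 : ξ l = -(g l : ℂ) := eq_neg_of_add_eq_zero_left h0
      have h7 := hξG l
      rw [h6, norm_neg, Complex.norm_intCast] at h7
      have h8 : |((g l : ℤ) : ℝ)| ≤ (G l : ℝ) := by
        have := hg1 l
        have h9 : ((|g l| : ℤ) : ℝ) ≤ ((G l : ℤ) : ℝ) := by exact_mod_cast this
        rw [Int.cast_abs] at h9
        exact_mod_cast h9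
      linarith
    exact hQ r hr hrr D δ _ (fun l => one_div_ne_zero (h5 l)) hh
  · rw [h3]
    exact (pow_le_pow_right₀ (hG1 l) (by omega)).trans (hGξ l)
  · rw [h3]
    have h5 : (1 : ℝ) ≤ ‖ξ l‖ ^ A := one_le_pow₀ (by linarith [hξ2 l])
    calc ‖ξ l‖ ^ A * (‖ξ l‖ ^ A + 2) ≤ ‖ξ l‖ ^ A * (‖ξ l‖ ^ A * ‖ξ l‖ ^ 2) := by
          refine mul_le_mul_of_nonneg_left ?_ (by positivity)
          have h6 : (4 : ℝ) ≤ ‖ξ l‖ ^ 2 := by nlinarith [hξ2 l]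
          have h7 : ‖ξ l‖ ^ A * 4 ≤ ‖ξ l‖ ^ A * ‖ξ l‖ ^ 2 := mul_le_mul_of_nonneg_left h6 (by positivity)
          linarith
      _ = ‖ξ l‖ ^ (2 * A + 2) := by ring

end

/-- the number of the tuples -/
theorem many_tuples (m : Fin k → ℕ) (hm : ∀ l, 1 ≤ m l) : ∃ c₀ : ℝ, 0 < c₀ ∧ ∀ T : ℕ, 1 ≤ T →
    {β : Fin k → ℂ | ∀ l, Sl.SInt (m l) T (β l)}.Finite ∧
      c₀ * (T : ℝ) ^ sz m ≤ ({β : Fin k → ℂ | ∀ l, Sl.SInt (m l) T (β l)}.ncard : ℝ) := by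
  classical
  have hexp : sz m = ∑ l, Sl.Mm (m l) := Finset.sum_congr rfl fun l _ => (Sl.Mm_eq (m l)).symm
  choose c₁ hc₁ hmany using fun i => Sl.many (m i) (hm i)
  refine ⟨∏ i, c₁ i, Finset.prod_pos fun i _ => hc₁ i, fun T hT => ⟨Set.Finite.pi' fun i => Sl.sint_fin (m i) T, ?_⟩⟩
  have h1 : ({β : Fin k → ℂ | ∀ l, Sl.SInt (m l) T (β l)}.ncard : ℝ) = ∏ i, ({ξ : ℂ | Sl.SInt (m i) T ξ}.ncard : ℝ) := by
    have h2 : {β : Fin k → ℂ | ∀ l, Sl.SInt (m l) T (β l)} = Set.univ.pi fun i => {ξ : ℂ | Sl.SInt (m i) T ξ} := by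
      ext β
      simp
    have hf : ∀ i, {ξ : ℂ | Sl.SInt (m i) T ξ}.Finite := fun i => Sl.sint_fin (m i) T
    have h3 : (Set.univ.pi fun i => {ξ : ℂ | Sl.SInt (m i) T ξ}) =
        ((Fintype.piFinset fun i => (hf i).toFinset : Finset (Fin k → ℂ)) : Set (Fin k → ℂ)) := by
      ext β
      simp
    rw [h2, h3, Set.ncard_coe_finset, Fintype.card_piFinset]
    push_cast
    refine Finset.prod_congr rfl fun i _ => ?_
    rw [Set.ncard_eq_toFinset_card _ (hf i)]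
  rw [h1, hexp, ← Finset.prod_pow_eq_pow_sum, ← Finset.prod_mul_distrib]
  refine Finset.prod_le_prod (fun i _ => ?_) fun i _ => hmany i T hT
  have := hc₁ i
  positivity

/-- growing degrees -/
theorem growing {X : Type} (a : ℕ → X → Prop) (e : ℕ → ℕ → X → ℝ) (M : ℕ)
    (h : ∀ D : ℕ, ∃ c C : ℝ, 0 < c ∧ ∀ T : ℕ, 1 ≤ T → ∀ x, a T x → e D T x ≤ C * (T : ℝ) ^ ((M : ℝ) - c)) :
    ∃ (d : ℕ → ℕ) (ε : ℕ → ℝ), Tendsto d atTop atTop ∧ Tendsto ε atTop (nhds 0) ∧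
      ∀ T : ℕ, 1 ≤ T → ∀ x, a T x → e (d T) T x ≤ ε T * (T : ℝ) ^ M := by
  choose c C hc hcount using h
  obtain ⟨d, hd, hε⟩ := Pool.Agent.Y123.GN.diag_seq (fun D T => C D * (1 / (T : ℝ) ^ (c D))) (by
    intro D
    have h2 : Tendsto (fun N : ℕ => (1 : ℝ) / (N : ℝ) ^ (c D)) atTop (nhds 0) := by
      have h3 := (tendsto_rpow_atTop (hc D)).comp tendsto_natCast_atTop_atTop
      have h4 := h3.inv_tendsto_atTop
      refine h4.congr fun N => ?_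
      rw [one_div]
      rfl
    have h5 := h2.const_mul (C D)
    rw [mul_zero] at h5
    exact h5)
  refine ⟨d, _, hd, hε, ?_⟩
  intro T hT x hx
  refine (hcount (d T) T hT x hx).trans (le_of_eq ?_)
  have hT0 : (0 : ℝ) < T := by exact_mod_cast hT
  rw [Real.rpow_sub hT0, Real.rpow_natCast]
  ring

end Pool.Agent.NH25.FR
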